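import Pool.Agent.H306R2.Defs
import Pool.Agent.H306R2.Arith

set_option autoImplicit false

/-! The arithmetic factor for integers (copied from `Pool.Agent.H306R2.EvenConst`, which imports much more). -/

namespace Pool.Agent.V1167.PP

open Finset Filter Topology
open Pool.Agent.H306R2 (lc lc_zero lc_succ aF)

lemma lc_nat (k : ℕ) (hk : 1 ≤ k) (m : ℕ) : lc (k : ℝ) m = ((m + k - 1).choose m : ℝ) := by
  induction m with
  | zero => rw [lc_zero]; simp
  | succ m ih =>
    rw [lc_succ, ih]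
    have h1 : m + 1 + k - 1 = (m + k - 1) + 1 := by omega
    have h2 : ((m + k - 1) + 1) * (m + k - 1).choose m = ((m + k - 1) + 1).choose (m + 1) * (m + 1) :=
      Nat.add_one_mul_choose_eq (m + k - 1) m
    have h3 : (((m + k - 1 + 1 : ℕ)) : ℝ) = m + k := by
      rw [show m + k - 1 + 1 = m + k by omega]; push_cast; ring
    have h4 : ((m : ℝ) + k) * ((m + k - 1).choose m : ℝ) =
        (((m + k - 1) + 1).choose (m + 1) : ℝ) * ((m : ℝ) + 1) := by
      rw [← h3]
      exact_mod_cast h2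
    rw [h1]
    have h5 : (m : ℝ) + 1 ≠ 0 := by positivity
    rw [← mul_div_assoc, div_eq_iff h5]
    rw [← h4]
    ring

lemma aF_nat (k : ℕ) (hk : 1 ≤ k) : aF (k : ℝ) =
    ∏' p : Nat.Primes, ((1 - 1 / (p : ℝ)) ^ (k ^ 2) *
      ∑' m : ℕ, ((m + k - 1).choose m : ℝ) ^ 2 * (1 / (p : ℝ)) ^ m) := by
  unfold aF
  refine tprod_congr fun p => ?_
  congr 1
  · have h := Real.rpow_natCast (1 - 1 / (p : ℝ)) (k ^ 2)
    rw [Nat.cast_pow] at h
    exact h
  · refine tsum_congr fun m => ?_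
    rw [lc_nat k hk]


end Pool.Agent.V1167.PP
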