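import Mathlib

set_option autoImplicit false

/-! The law of one phase: Fourier coefficients of the powers of the Euler factor. -/

namespace Pool.Agent.V1167.PP

open Filter MeasureTheory Topology

/-- `e(x)` -/
noncomputable def ex (x : ℝ) : ℂ := Complex.exp (2 * Real.pi * Complex.I * x)

lemma ex_norm (x : ℝ) : ‖ex x‖ = 1 := by
  unfold ex
  have : (2 * Real.pi * Complex.I * x : ℂ) = ((2 * Real.pi * x : ℝ) : ℂ) * Complex.I := by push_cast; ring
  rw [this, Complex.norm_exp_ofReal_mul_I]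

lemma ex_add (x y : ℝ) : ex (x + y) = ex x * ex y := by
  unfold ex; rw [← Complex.exp_add]; congr 1; push_cast; ring

lemma ex_neg (x : ℝ) : ex (-x) = (starRingEnd ℂ) (ex x) := by
  unfold ex
  rw [← Complex.exp_conj]
  congr 1
  simp only [map_mul, Complex.conj_ofReal, Complex.conj_I, map_ofNat, Complex.ofReal_neg]
  ring

lemma ex_nat (m : ℕ) (x : ℝ) : ex (m * x) = ex x ^ m := by
  unfold ex; rw [← Complex.exp_nat_mul]; congr 1; push_cast; ring

lemma ex_cont : Continuous ex := by unfold ex; fun_prop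

lemma ex_int (n : ℤ) : ∫ x in Set.Icc (0:ℝ) 1, ex (n * x) = if n = 0 then 1 else 0 := by
  rw [MeasureTheory.integral_Icc_eq_integral_Ioc, ← intervalIntegral.integral_of_le zero_le_one]
  split_ifs with h
  · subst h; simp [ex]
  · have hc : (2 * Real.pi * Complex.I * n : ℂ) ≠ 0 := by
      have : (n:ℂ) ≠ 0 := by exact_mod_cast h
      have := Complex.two_pi_I_ne_zero
      positivity
    have e : ∀ x : ℝ, ex (n * x) = Complex.exp ((2 * Real.pi * Complex.I * n) * x) := fun x => by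
      unfold ex; congr 1; push_cast; ring
    simp_rw [e]
    rw [integral_exp_mul_complex hc]
    have e2 : Complex.exp ((2 * Real.pi * Complex.I * n) * (1:ℝ)) = 1 := by
      rw [Complex.ofReal_one, mul_one]
      have : (2 * Real.pi * Complex.I * n : ℂ) = n * (2 * Real.pi * Complex.I) := by ring
      rw [this, Complex.exp_int_mul_two_pi_mul_I]
    rw [e2]; simp

/-- Fourier coefficients of the square of the modulus of an absolutely convergent series -/
lemma coef {a : ℕ → ℝ} (ha : Summable fun m => ‖a m‖) (n : ℕ) :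
    ∫ x in Set.Icc (0:ℝ) 1, ex (n * x) * ((‖∑' m : ℕ, (a m : ℂ) * ex (m * x)‖ ^ 2 : ℝ) : ℂ) =
      ((∑' i : ℕ, a i * a (i + n) : ℝ) : ℂ) := by
  have hs : ∀ x : ℝ, Summable fun m : ℕ => ‖(a m : ℂ) * ex (m * x)‖ := fun x => by
    simpa [ex_norm] using ha
  have e1 : ∀ x : ℝ, ex (n * x) * ((‖∑' m : ℕ, (a m : ℂ) * ex (m * x)‖ ^ 2 : ℝ) : ℂ) =
      ∑' q : ℕ × ℕ, ((a q.1 * a q.2 : ℝ) : ℂ) * ex (((n + q.1 - q.2 : ℤ) : ℝ) * x) := by
    intro x
    have h1 : ((‖∑' m : ℕ, (a m : ℂ) * ex (m * x)‖ ^ 2 : ℝ) : ℂ) =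
        (∑' m : ℕ, (a m : ℂ) * ex (m * x)) * (∑' m : ℕ, (a m : ℂ) * ex (-(m * x))) := by
      have h2 : (∑' m : ℕ, (a m : ℂ) * ex (-(m * x))) = (starRingEnd ℂ) (∑' m : ℕ, (a m : ℂ) * ex (m * x)) := by
        rw [Complex.conj_tsum]
        refine tsum_congr fun m => ?_
        rw [map_mul, Complex.conj_ofReal, ex_neg]
      rw [h2, Complex.mul_conj, Complex.normSq_eq_norm_sq]
    rw [h1, tsum_mul_tsum_of_summable_norm (hs x) (by simpa [ex_norm] using ha), ← tsum_mul_left]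
    refine tsum_congr fun q => ?_
    have h3 : ex (((n + q.1 - q.2 : ℤ) : ℝ) * x) = ex (n * x) * (ex (q.1 * x) * ex (-(q.2 * x))) := by
      rw [← ex_add, ← ex_add]; congr 1; push_cast; ring
    rw [h3]; push_cast; ring
  simp_rw [e1]
  have hq : Summable fun q : ℕ × ℕ => ‖a q.1 * a q.2‖ := by
    simp_rw [norm_mul]
    exact ha.mul_of_nonneg ha (fun _ => norm_nonneg _) (fun _ => norm_nonneg _)
  have hint := hasSum_integral_of_summable_integral_norm (μ := volume.restrict (Set.Icc (0:ℝ) 1))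
    (F := fun (q : ℕ × ℕ) (x : ℝ) => ((a q.1 * a q.2 : ℝ) : ℂ) * ex (((n + q.1 - q.2 : ℤ) : ℝ) * x)) (fun q => by
      refine Continuous.integrableOn_Icc ?_
      exact continuous_const.mul (ex_cont.comp (continuous_const.mul continuous_id))) (by
      refine hq.congr fun q => ?_
      simp_rw [norm_mul, ex_norm, mul_one, Complex.norm_real]
      simp)
  rw [← hint.tsum_eq]
  have e2 : ∀ q : ℕ × ℕ, ∫ x in Set.Icc (0:ℝ) 1, ((a q.1 * a q.2 : ℝ) : ℂ) * ex (((n + q.1 - q.2 : ℤ) : ℝ) * x) =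
      ((if q.2 = q.1 + n then a q.1 * a q.2 else 0 : ℝ) : ℂ) := by
    intro q
    rw [integral_const_mul, ex_int]
    by_cases h : q.2 = q.1 + n
    · rw [if_pos h, if_pos (by rw [h]; push_cast; ring), mul_one]
    · rw [if_neg h, if_neg (by intro h'; apply h; omega), mul_zero, Complex.ofReal_zero]
  simp_rw [e2]
  rw [← Complex.ofReal_tsum]
  congr 1
  have hq2 : Summable fun q : ℕ × ℕ => (if q.2 = q.1 + n then a q.1 * a q.2 else 0 : ℝ) := by
    refine Summable.of_norm_bounded hq fun q => ?_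
    split_ifs
    · exact le_rfl
    · rw [norm_zero]; exact norm_nonneg _
  rw [hq2.tsum_prod]
  refine tsum_congr fun i => ?_
  rw [tsum_eq_single (i + n) (fun j hj => if_neg hj), if_pos rfl]

/-- the coefficient of `x^m` in `(1-x)^(-s)` -/
noncomputable def cs (s : ℝ) (m : ℕ) : ℝ := ∏ i ∈ Finset.range m, (s + i) / ((i : ℝ) + 1)

lemma cs_pos {s : ℝ} (hs : 0 < s) (m : ℕ) : 0 < cs s m := by
  unfold cs; exact Finset.prod_pos fun i _ => by positivity

lemma cs_succ (s : ℝ) (m : ℕ) : cs s (m + 1) = cs s m * ((s + m) / ((m:ℝ) + 1)) := by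
  unfold cs; rw [Finset.prod_range_succ]

lemma choose_cs (s : ℝ) (m : ℕ) : Ring.choose (-(s:ℂ)) m * (-1) ^ m = (cs s m : ℂ) := by
  have h := Ring.descPochhammer_eq_factorial_smul_choose (-(s:ℂ)) m
  have h2 : (descPochhammer ℤ m).smeval (-(s:ℂ)) = (-1) ^ m * (m.factorial : ℂ) * (cs s m : ℂ) := by
    clear h
    induction m with
    | zero => simp [cs]
    | succ m ih =>
      rw [descPochhammer_succ_right, Polynomial.smeval_mul, ih, cs_succ, Polynomial.smeval_sub,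
        Polynomial.smeval_X, Polynomial.smeval_natCast, Nat.factorial_succ]
      push_cast
      have : (m:ℂ) + 1 ≠ 0 := by exact_mod_cast Nat.succ_ne_zero m
      field_simp
      simp
      ring
  rw [h2] at h
  rw [nsmul_eq_mul] at h
  have hf : (m.factorial : ℂ) ≠ 0 := by exact_mod_cast Nat.factorial_ne_zero m
  have h3 : (-1 : ℂ) ^ m * (cs s m : ℂ) = Ring.choose (-(s:ℂ)) m := by
    apply mul_left_cancel₀ hf
    rw [← h]; ring
  rw [← h3]
  have : ((-1:ℂ) ^ m) * ((-1:ℂ) ^ m) = 1 := by rw [← mul_pow]; simp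
  calc (-1 : ℂ) ^ m * (cs s m : ℂ) * (-1) ^ m = ((-1:ℂ) ^ m) * ((-1:ℂ) ^ m) * cs s m := by ring
    _ = _ := by rw [this, one_mul]

/-- the binomial series -/
lemma bin (s : ℝ) {z : ℂ} (hz : ‖z‖ < 1) : ∑' m : ℕ, (cs s m : ℂ) * z ^ m = (1 - z) ^ (-(s:ℂ)) := by
  have h := (Complex.one_add_cpow_hasFPowerSeriesOnBall_zero (a := -(s:ℂ))).hasSum (y := -z) (by
    rw [← ENNReal.ofReal_one, Metric.eball_ofReal]; simpa using hz)
  have h2 := h.tsum_eq
  simp only [binomialSeries_apply, zero_add] at h2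
  rw [← sub_eq_add_neg] at h2
  rw [← h2]
  refine tsum_congr fun m => ?_
  rw [← choose_cs]
  simp only [List.ofFn_const, List.prod_replicate, smul_eq_mul]
  rw [neg_pow z m]
  ring

/-- the Euler factor, `|1 - e(x) / √p|^(-2s)` -/
noncomputable def ef (s : ℝ) (p : ℕ) (x : ℝ) : ℝ := ‖1 - ex x / (Real.sqrt p : ℂ)‖ ^ (-(2 * s))

/-- its law, `|1 - e(x) / √p|^(-2s)` divided by its integral over `[0, 1]` -/
noncomputable def rho (s : ℝ) (p : ℕ) (x : ℝ) : ℝ := ef s p x / ∫ y in Set.Icc (0:ℝ) 1, ef s p y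

lemma sqp {p : ℕ} (hp : p.Prime) : 1 < Real.sqrt p := by
  rw [Real.lt_sqrt (by norm_num)]; simpa using (show (1:ℝ) < p by exact_mod_cast hp.one_lt)

lemma an_summable {s : ℝ} (hs : 0 < s) {r : ℝ} (hr : 0 < r) (hr1 : r < 1) :
    Summable (fun m : ℕ => ‖cs s m * r ^ m‖) := by
  have hsm : Summable (fun m : ℕ => cs s m * r ^ m) := by
    refine summable_of_ratio_test_tendsto_lt_one hr1 (Eventually.of_forall fun m => ?_) ?_
    · have := cs_pos hs m
      positivity
    · have h1 : ∀ m : ℕ, ‖cs s (m + 1) * r ^ (m + 1)‖ / ‖cs s m * r ^ m‖ =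
          (1 + (s - 1) * (1 / ((m:ℝ) + 1))) * r := by
        intro m
        have h2 := cs_pos hs m
        have h3 := cs_pos hs (m + 1)
        rw [Real.norm_of_nonneg (by positivity), Real.norm_of_nonneg (by positivity), cs_succ]
        have h4 : (m:ℝ) + 1 ≠ 0 := by positivity
        field_simp
        ring
      simp only [h1]
      have h5 : Tendsto (fun m : ℕ => 1 / ((m:ℝ) + 1)) atTop (𝓝 0) :=
        tendsto_one_div_add_atTop_nhds_zero_nat
      have h6 := ((h5.const_mul (s - 1)).const_add 1).mul_const r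
      simpa using h6
  exact hsm.norm

lemma ef_eq {s : ℝ} {p : ℕ} (hp : p.Prime) (x : ℝ) :
    ef s p x = ‖∑' m : ℕ, ((cs s m * (1 / Real.sqrt p) ^ m : ℝ) : ℂ) * ex (m * x)‖ ^ 2 := by
  have h1 := sqp hp
  have hz : ‖ex x / (Real.sqrt p : ℂ)‖ < 1 := by
    rw [norm_div, ex_norm, Complex.norm_real, Real.norm_of_nonneg (by positivity), div_lt_one (by linarith)]
    exact h1
  have h2 := bin s hz
  have e1 : ∑' m : ℕ, ((cs s m * (1 / Real.sqrt p) ^ m : ℝ) : ℂ) * ex (m * x) = (1 - ex x / (Real.sqrt p : ℂ)) ^ (-(s:ℂ)) := by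
    rw [← h2]
    refine tsum_congr fun m => ?_
    rw [ex_nat]
    push_cast
    rw [div_pow, div_pow]
    ring
  rw [e1]
  have e2 : (-(s:ℂ)) = ((-s : ℝ) : ℂ) := by push_cast; rfl
  rw [e2, Complex.norm_cpow_real]
  unfold ef
  rw [← Real.rpow_natCast, ← Real.rpow_mul (norm_nonneg _)]
  congr 1
  push_cast; ring

lemma ef_pos {s : ℝ} {p : ℕ} (hp : p.Prime) (x : ℝ) : 0 < ef s p x := by
  have h1 := sqp hp
  have hz : ‖ex x / (Real.sqrt p : ℂ)‖ < 1 := by
    rw [norm_div, ex_norm, Complex.norm_real, Real.norm_of_nonneg (by positivity), div_lt_one (by linarith)]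
    exact h1
  unfold ef
  refine Real.rpow_pos_of_pos (norm_pos_iff.mpr fun h => ?_) _
  rw [sub_eq_zero] at h
  rw [← h] at hz
  simp at hz

lemma ef_cont {s : ℝ} {p : ℕ} (hp : p.Prime) : Continuous (ef s p) := by
  have h : ∀ x, ‖1 - ex x / (Real.sqrt p : ℂ)‖ ≠ 0 := fun x h0 => by
    have h1 := sqp hp
    have hz : ‖ex x / (Real.sqrt p : ℂ)‖ < 1 := by
      rw [norm_div, ex_norm, Complex.norm_real, Real.norm_of_nonneg (by positivity), div_lt_one (by linarith)]
      exact h1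
    rw [norm_eq_zero, sub_eq_zero] at h0
    rw [← h0] at hz
    simp at hz
  unfold ef
  exact ((continuous_const.sub (ex_cont.div_const _)).norm).rpow_const fun x => Or.inl (h x)

/-- the Fourier coefficients of the Euler factor -/
lemma ef_coef {s : ℝ} (hs : 0 < s) {p : ℕ} (hp : p.Prime) (n : ℕ) :
    ∫ x in Set.Icc (0:ℝ) 1, ex (n * x) * (ef s p x : ℂ) =
      ((Real.sqrt p ^ n * ∑' i : ℕ, cs s i * cs s (i + n) * (1 / (p:ℝ)) ^ (i + n) : ℝ) : ℂ) := by
  have h1 := sqp hp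
  have h0 : 0 < Real.sqrt p := by linarith
  have hr : 0 < 1 / Real.sqrt p := by positivity
  have hr1 : 1 / Real.sqrt p < 1 := by rw [div_lt_one h0]; exact h1
  have h2 := coef (an_summable hs hr hr1) n
  simp_rw [← ef_eq hp] at h2
  rw [h2]
  congr 1
  rw [← tsum_mul_left]
  refine tsum_congr fun i => ?_
  have h3 : (1 / (p:ℝ)) = (1 / Real.sqrt p) ^ 2 := by
    rw [div_pow, one_pow, Real.sq_sqrt (Nat.cast_nonneg p)]
  rw [h3, ← pow_mul]
  have h4 : Real.sqrt p ^ n * (1 / Real.sqrt p) ^ (2 * (i + n)) = (1 / Real.sqrt p) ^ i * (1 / Real.sqrt p) ^ (i + n) := by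
    have h5 : Real.sqrt p ^ n * (1 / Real.sqrt p) ^ n = 1 := by
      rw [← mul_pow, mul_one_div_cancel h0.ne', one_pow]
    calc Real.sqrt p ^ n * (1 / Real.sqrt p) ^ (2 * (i + n))
        = (Real.sqrt p ^ n * (1 / Real.sqrt p) ^ n) * ((1 / Real.sqrt p) ^ i * (1 / Real.sqrt p) ^ (i + n)) := by ring
      _ = _ := by rw [h5, one_mul]
  calc cs s i * (1 / Real.sqrt p) ^ i * (cs s (i + n) * (1 / Real.sqrt p) ^ (i + n))
      = cs s i * cs s (i + n) * ((1 / Real.sqrt p) ^ i * (1 / Real.sqrt p) ^ (i + n)) := by ring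
    _ = cs s i * cs s (i + n) * (Real.sqrt p ^ n * (1 / Real.sqrt p) ^ (2 * (i + n))) := by rw [h4]
    _ = _ := by ring

lemma ef_mass {s : ℝ} (hs : 0 < s) {p : ℕ} (hp : p.Prime) :
    ∫ x in Set.Icc (0:ℝ) 1, ef s p x = ∑' i : ℕ, cs s i ^ 2 * (1 / (p:ℝ)) ^ i := by
  have h := ef_coef hs hp 0
  have e : ∀ x : ℝ, ex (((0:ℕ):ℝ) * x) = 1 := fun x => by simp [ex]
  simp only [e, one_mul, pow_zero, add_zero] at h
  have h' : (∫ x in Set.Icc (0:ℝ) 1, ((ef s p x : ℝ) : ℂ)) = ((∫ x in Set.Icc (0:ℝ) 1, ef s p x : ℝ) : ℂ) := integral_ofReal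
  rw [h'] at h
  have := Complex.ofReal_injective h
  rw [this]
  refine tsum_congr fun i => ?_
  ring

lemma ef_mass_pos {s : ℝ} {p : ℕ} (hp : p.Prime) : 0 < ∫ x in Set.Icc (0:ℝ) 1, ef s p x := by
  rw [MeasureTheory.integral_Icc_eq_integral_Ioc, ← intervalIntegral.integral_of_le zero_le_one]
  exact intervalIntegral.intervalIntegral_pos_of_pos ((ef_cont hp).intervalIntegrable _ _) (fun x => ef_pos hp x) one_pos

/-- the Fourier coefficients of the law of one phase -/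
lemma rho_coef {s : ℝ} (hs : 0 < s) {p : ℕ} (hp : p.Prime) (n : ℤ) :
    ∫ x in Set.Icc (0:ℝ) 1, ex (n * x) * (rho s p x : ℂ) =
      ((Real.sqrt p ^ n.natAbs * (∑' i : ℕ, cs s i * cs s (i + n.natAbs) * (1 / (p:ℝ)) ^ (i + n.natAbs)) /
        ∑' i : ℕ, cs s i ^ 2 * (1 / (p:ℝ)) ^ i : ℝ) : ℂ) := by
  have h1 : ∀ n : ℤ, ∫ x in Set.Icc (0:ℝ) 1, ex (n * x) * (rho s p x : ℂ) =
      (∫ x in Set.Icc (0:ℝ) 1, ex (n * x) * (ef s p x : ℂ)) / ((∫ x in Set.Icc (0:ℝ) 1, ef s p x : ℝ) : ℂ) := by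
    intro n
    rw [← integral_div]
    refine integral_congr_ae (Eventually.of_forall fun x => ?_)
    simp only [rho]
    push_cast
    ring
  have h2 : ∀ n : ℤ, ∫ x in Set.Icc (0:ℝ) 1, ex (n * x) * (ef s p x : ℂ) =
      ((Real.sqrt p ^ n.natAbs * ∑' i : ℕ, cs s i * cs s (i + n.natAbs) * (1 / (p:ℝ)) ^ (i + n.natAbs) : ℝ) : ℂ) := by
    intro n
    rcases Int.natAbs_eq n with h | h
    · rw [← ef_coef hs hp n.natAbs]
      refine integral_congr_ae (Eventually.of_forall fun x => ?_)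
      have : (n:ℝ) = ((n.natAbs : ℕ) : ℝ) := by rw [h]; simp
      simp only [this]
    · have h3 := ef_coef hs hp n.natAbs
      have h4 := congrArg (starRingEnd ℂ) h3
      rw [Complex.conj_ofReal, ← integral_conj] at h4
      rw [← h4]
      refine integral_congr_ae (Eventually.of_forall fun x => ?_)
      have : (n:ℝ) = -((n.natAbs : ℕ) : ℝ) := by rw [h]; simp
      simp only [this]
      rw [map_mul, Complex.conj_ofReal, ← ex_neg]
      congr 2
      ring
  rw [h1, h2, ef_mass hs hp]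
  push_cast
  ring

end Pool.Agent.V1167.PP
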