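import Pool.Agent.V1167.PP.SW
import Pool.Agent.V1167.PP.Rho

set_option autoImplicit false

/-! The limit law of the phases, from the twists. -/

namespace Pool.Agent.V1167.PP

open Filter MeasureTheory Topology UnitAddTorus

variable {ι : Type*} [Fintype ι]

/-- the local factor of the twist -/
noncomputable def nv (s : ℝ) (p c : ℕ) : ℝ :=
  Real.sqrt p ^ c * (∑' i : ℕ, cs s i * cs s (i + c) * (1 / (p:ℝ)) ^ (i + c)) /
    ∑' i : ℕ, cs s i ^ 2 * (1 / (p:ℝ)) ^ i

/-- the phases -/
noncomputable def ph (p : ι → ℕ) (t : ℝ) : UnitAddTorus ι :=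
  fun j => ((t * Real.log (p j) / (2 * Real.pi) : ℝ) : UnitAddCircle)

lemma ph_cont (p : ι → ℕ) : Continuous (ph p) := by
  unfold ph
  refine continuous_pi fun j => ?_
  exact (AddCircle.continuous_mk' 1).comp (by fun_prop)

lemma fourier_ex (n : ℤ) (x : ℝ) : fourier n ((x : ℝ) : UnitAddCircle) = ex (n * x) := by
  rw [fourier_coe_apply]
  unfold ex
  congr 1
  push_cast
  ring

lemma mF_ph (p : ι → ℕ) (n : ι → ℤ) (t : ℝ) :
    mFourier n (ph p t) = ex ((∑ j, n j * Real.log (p j)) * t / (2 * Real.pi)) := by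
  have h : ∀ s : Finset ι, ∏ j ∈ s, fourier (n j) (ph p t j) = ex ((∑ j ∈ s, n j * Real.log (p j)) * t / (2 * Real.pi)) := by
    classical
    intro s
    induction s using Finset.induction_on with
    | empty => simp [ex]
    | insert a s ha ih =>
      rw [Finset.prod_insert ha, ih, Finset.sum_insert ha]
      unfold ph
      rw [fourier_ex, ← ex_add]
      congr 1
      ring
  exact h Finset.univ

/-- the numerator and the denominator of the twist -/
def nk (p : ι → ℕ) (n : ι → ℤ) : ℕ := ∏ j, p j ^ (n j).toNat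

lemma nk_ne {p : ι → ℕ} (hp : ∀ j, (p j).Prime) (n : ι → ℤ) : nk p n ≠ 0 :=
  Finset.prod_ne_zero_iff.mpr fun j _ => pow_ne_zero _ (hp j).ne_zero

lemma nk_cop {p : ι → ℕ} (hp : ∀ j, (p j).Prime) (hi : Function.Injective p) (n : ι → ℤ) :
    (nk p (-n)).Coprime (nk p n) := by
  unfold nk
  refine Nat.Coprime.prod_left fun i _ => Nat.Coprime.prod_right fun j _ => ?_
  by_cases h : i = j
  · subst h
    rcases le_total 0 (n i) with h1 | h1
    · have : ((-n) i).toNat = 0 := by simp [h1]
      rw [this, pow_zero]; exact Nat.coprime_one_left _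
    · have : (n i).toNat = 0 := by simp [h1]
      rw [this, pow_zero]; exact Nat.coprime_one_right _
  · exact Nat.Coprime.pow _ _ ((Nat.coprime_primes (hp i) (hp j)).mpr fun e => h (hi e))

lemma nk_log {p : ι → ℕ} (hp : ∀ j, (p j).Prime) (n : ι → ℤ) :
    Real.log (nk p n) - Real.log (nk p (-n)) = ∑ j, n j * Real.log (p j) := by
  have h : ∀ n : ι → ℤ, Real.log (nk p n) = ∑ j, ((n j).toNat : ℝ) * Real.log (p j) := by
    intro n
    unfold nk
    push_cast
    rw [Real.log_prod fun j _ => by have := (hp j).ne_zero; positivity]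
    refine Finset.sum_congr rfl fun j _ => ?_
    rw [Real.log_pow]
  rw [h, h, ← Finset.sum_sub_distrib]
  refine Finset.sum_congr rfl fun j _ => ?_
  have h1 : ((n j : ℤ) : ℝ) = ((n j).toNat : ℝ) - (((-n) j).toNat : ℝ) := by
    have h2 : (n j : ℤ) = ((n j).toNat : ℤ) - (((-n) j).toNat : ℤ) := by
      rw [Pi.neg_apply]; omega
    exact_mod_cast h2
  rw [h1]; ring

lemma nk_mul {p : ι → ℕ} (n : ι → ℤ) : nk p (-n) * nk p n = ∏ j, p j ^ (n j).natAbs := by
  unfold nk
  rw [← Finset.prod_mul_distrib]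
  refine Finset.prod_congr rfl fun j _ => ?_
  rw [← pow_add]
  congr 1
  rw [Pi.neg_apply]; omega

lemma fac_prod {p : ι → ℕ} (hp : ∀ j, (p j).Prime) (hi : Function.Injective p) (e : ι → ℕ) (i : ι) :
    (∏ j, p j ^ e j).factorization (p i) = e i := by
  classical
  rw [Nat.factorization_prod fun j _ => pow_ne_zero _ (hp j).ne_zero, Finsupp.finsetSum_apply,
    Finset.sum_eq_single i]
  · rw [(hp i).factorization_pow, Finsupp.single_eq_same]
  · intro j _ hj
    rw [(hp j).factorization_pow, Finsupp.single_eq_of_ne]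
    intro h; exact hj (hi h).symm
  · intro h; exact absurd (Finset.mem_univ i) h

lemma prod_nv {p : ι → ℕ} (hp : ∀ j, (p j).Prime) (hi : Function.Injective p) (n : ι → ℤ)
    {ν : ℕ → ℕ → ℝ} (hν : ∀ q : ℕ, q.Prime → ν q 0 = 1) :
    ∏ q ∈ (nk p (-n) * nk p n).primeFactors, ν q ((nk p (-n) * nk p n).factorization q) =
      ∏ j, ν (p j) (n j).natAbs := by
  classical
  rw [nk_mul]
  set N := ∏ j, p j ^ (n j).natAbs with hN
  have h1 : N.primeFactors ⊆ Finset.univ.image p := by
    intro q hq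
    rw [Nat.mem_primeFactors] at hq
    obtain ⟨j, _, hj⟩ := (Nat.Prime.prime hq.1).exists_mem_finset_dvd hq.2.1
    have h2 := hq.1.dvd_of_dvd_pow hj
    rw [Nat.prime_dvd_prime_iff_eq hq.1 (hp j)] at h2
    exact Finset.mem_image.mpr ⟨j, Finset.mem_univ _, h2.symm⟩
  rw [Finset.prod_subset h1, Finset.prod_image fun i _ j _ h => hi h]
  · exact Finset.prod_congr rfl fun j _ => by rw [hN, fac_prod hp hi]
  · intro q hq hq2
    obtain ⟨j, _, rfl⟩ := Finset.mem_image.mp hq
    have : N.factorization (p j) = 0 := by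
      rw [← Finsupp.notMem_support_iff, Nat.support_factorization]; exact hq2
    rw [this, hν _ (hp j)]

lemma nv_zero {s : ℝ} (hs : 0 < s) {p : ℕ} (hp : p.Prime) : nv s p 0 = 1 := by
  unfold nv
  have e : (fun i : ℕ => cs s i * cs s (i + 0) * (1 / (p:ℝ)) ^ (i + 0)) = fun i => cs s i ^ 2 * (1 / (p:ℝ)) ^ i := by
    funext i; rw [add_zero]; ring
  rw [e, pow_zero, one_mul, ← ef_mass hs hp, div_self (ef_mass_pos hp).ne']

lemma rho_cont {s : ℝ} {p : ℕ} (hp : p.Prime) : Continuous (rho s p) := (ef_cont hp).div_const _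

lemma rho_nonneg {s : ℝ} {p : ℕ} (hp : p.Prime) (x : ℝ) : 0 ≤ rho s p x :=
  div_nonneg (ef_pos hp x).le (ef_mass_pos hp).le

lemma rho_mass {s : ℝ} {p : ℕ} (hp : p.Prime) : ∫ x in Set.Icc (0:ℝ) 1, rho s p x = 1 := by
  unfold rho
  rw [integral_div, div_self (ef_mass_pos hp).ne']

/-- the law of one phase: density `rho` on `[0, 1]` -/
noncomputable def law (s : ℝ) (p : ℕ) : Measure ℝ :=
  (volume.restrict (Set.Icc (0:ℝ) 1)).withDensity fun x => ENNReal.ofReal (rho s p x)

lemma law_integral {s : ℝ} {p : ℕ} (hp : p.Prime) (f : ℝ → ℂ) :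
    ∫ x, f x ∂(law s p) = ∫ x in Set.Icc (0:ℝ) 1, f x * (rho s p x : ℂ) := by
  unfold law
  have hmeas : Measurable fun x => ENNReal.ofReal (rho s p x) :=
    ENNReal.measurable_ofReal.comp (rho_cont hp).measurable
  rw [integral_withDensity_eq_integral_toReal_smul hmeas (Eventually.of_forall fun _ => ENNReal.ofReal_lt_top)]
  refine integral_congr_ae (Eventually.of_forall fun x => ?_)
  simp only
  rw [ENNReal.toReal_ofReal (rho_nonneg hp x), Complex.real_smul, mul_comm]

lemma law_prob {s : ℝ} {p : ℕ} (hp : p.Prime) : IsProbabilityMeasure (law s p) := by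
  constructor
  unfold law
  rw [withDensity_apply _ MeasurableSet.univ, Measure.restrict_univ,
    ← ofReal_integral_eq_lintegral_ofReal ((rho_cont hp).continuousOn.integrableOn_compact isCompact_Icc)
      (Eventually.of_forall fun x => rho_nonneg hp x), rho_mass hp, ENNReal.ofReal_one]

lemma mk_cont : Continuous fun (x : ι → ℝ) => (fun j => ((x j : ℝ) : UnitAddCircle) : UnitAddTorus ι) :=
  continuous_pi fun j => (AddCircle.continuous_mk' 1).comp (continuous_apply j)

/-- the limit law -/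
noncomputable def Lam (s : ℝ) (p : ι → ℕ) (G : UnitAddTorus ι → ℂ) : ℂ :=
  ∫ x, G (fun j => ((x j : ℝ) : UnitAddCircle)) ∂(Measure.pi fun j => law s (p j))

section
variable {s : ℝ} {p : ι → ℕ} (hp : ∀ j, (p j).Prime)
include hp

lemma Lam_int (G : C(UnitAddTorus ι, ℂ)) :
    Integrable (fun x : ι → ℝ => G (fun j => ((x j : ℝ) : UnitAddCircle))) (Measure.pi fun j => law s (p j)) := by
  have := fun j => law_prob (s := s) (hp j)
  refine (integrable_const (‖G‖ : ℝ)).mono (G.continuous.comp mk_cont).aestronglyMeasurable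
    (Eventually.of_forall fun x => ?_)
  rw [norm_norm]
  exact G.norm_coe_le_norm _

lemma Lam_add (G H : C(UnitAddTorus ι, ℂ)) :
    Lam s p (G + H : C(UnitAddTorus ι, ℂ)) = Lam s p G + Lam s p H := by
  unfold Lam
  rw [← integral_add (Lam_int hp G) (Lam_int hp H)]
  rfl

lemma Lam_bound (G : C(UnitAddTorus ι, ℂ)) : ‖Lam s p G‖ ≤ ‖G‖ := by
  have := fun j => law_prob (s := s) (hp j)
  unfold Lam
  refine (norm_integral_le_of_norm_le_const (C := ‖G‖) (Eventually.of_forall fun x => G.norm_coe_le_norm _)).trans ?_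
  simp

end

lemma Lam_smul {s : ℝ} {p : ι → ℕ} (c : ℂ) (G : C(UnitAddTorus ι, ℂ)) :
    Lam s p (c • G : C(UnitAddTorus ι, ℂ)) = c * Lam s p G := by
  unfold Lam
  rw [← integral_const_mul]
  rfl

lemma Lam_char {s : ℝ} (hs : 0 < s) {p : ι → ℕ} (hp : ∀ j, (p j).Prime) (n : ι → ℤ) :
    Lam s p (mFourier n) = ((∏ j, nv s (p j) (n j).natAbs : ℝ) : ℂ) := by
  have := fun j => law_prob (s := s) (hp j)
  unfold Lam
  have e : ∀ x : ι → ℝ, mFourier n (fun j => ((x j : ℝ) : UnitAddCircle)) = ∏ j, ex (n j * x j) := by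
    intro x
    show ∏ j, fourier (n j) ((x j : ℝ) : UnitAddCircle) = _
    exact Finset.prod_congr rfl fun j _ => fourier_ex _ _
  simp_rw [e]
  rw [integral_fintype_prod_eq_prod (𝕜 := ℂ) (f := fun j (y : ℝ) => ex (n j * y))]
  rw [Complex.ofReal_prod]
  refine Finset.prod_congr rfl fun j _ => ?_
  rw [law_integral (hp j)]
  exact rho_coef hs (hp j) (n j)

/-- **From the twists to the law of the phases**, finitely many primes -/
theorem phases_fin {p : ι → ℕ} (hp : ∀ j, (p j).Prime) (hi : Function.Injective p) {s : ℝ} (hs : 0 < s)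
    {A : ℝ → Set ℝ} {w : ℝ → ℝ → ℂ} {M : ℝ} {c : ℂ}
    (hint : ∀ᶠ T in atTop, IntegrableOn (w T) (A T)) (hM : ∀ᶠ T in atTop, ∫ t in A T, ‖w T t‖ ≤ M)
    (hlim : ∀ h k : ℕ, h ≠ 0 → k ≠ 0 → h.Coprime k → Tendsto (fun T => ∫ t in A T, w T t *
      Complex.exp (((Real.log k - Real.log h : ℝ) : ℂ) * Complex.I * t)) atTop
        (𝓝 (c * ((∏ q ∈ (h * k).primeFactors, nv s q ((h * k).factorization q) : ℝ) : ℂ))))
    {G : (ι → ℂ) → ℂ} (hG : Continuous G) :
    Tendsto (fun T => ∫ t in A T, w T t * G (fun j => ((p j : ℕ) : ℂ) ^ ((t:ℂ) * Complex.I))) atTop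
      (𝓝 (c * ∫ x, G (fun j => ex (x j)) ∂(Measure.pi fun j => law s (p j)))) := by
  obtain ⟨G', hG'⟩ : ∃ G' : C(UnitAddTorus ι, ℂ), ∀ θ, G' θ = G (fun j => fourier 1 (θ j)) :=
    ⟨⟨fun θ => G (fun j => fourier 1 (θ j)), hG.comp (continuous_pi fun j => by fun_prop)⟩, fun _ => rfl⟩
  have h1 := sw (A := A) (w := w) (M := M) (ph_cont p) hint hM (L0 := fun G => c * Lam s p G)
    (fun x y => by rw [Lam_add hp]; ring) (fun a x => by rw [Lam_smul]; ring) (M0 := ‖c‖) (fun x => by
      rw [norm_mul]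
      exact mul_le_mul_of_nonneg_left (Lam_bound (s := s) hp x) (norm_nonneg _)) (fun n => ?_) G'
  · have e1 : ∀ t : ℝ, G' (ph p t) = G (fun j => ((p j : ℕ) : ℂ) ^ ((t:ℂ) * Complex.I)) := by
      intro t
      rw [hG']
      congr 1
      funext j
      unfold ph
      rw [fourier_ex, Complex.cpow_def_of_ne_zero (by exact_mod_cast (hp j).ne_zero)]
      unfold ex
      congr 1
      rw [← Complex.natCast_log]
      push_cast
      have : (Real.pi : ℂ) ≠ 0 := by exact_mod_cast Real.pi_ne_zero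
      field_simp
    have e2 : Lam s p G' = ∫ x, G (fun j => ex (x j)) ∂(Measure.pi fun j => law s (p j)) := by
      unfold Lam
      refine integral_congr_ae (Eventually.of_forall fun x => ?_)
      simp only
      rw [hG']
      congr 2
      funext j
      rw [fourier_ex]
      congr 1
      push_cast
      ring
    simp_rw [e1] at h1
    rw [← e2]
    exact h1
  · have h2 := hlim (nk p (-n)) (nk p n) (nk_ne hp _) (nk_ne hp _) (nk_cop hp hi n)
    rw [prod_nv hp hi n (fun q hq => nv_zero hs hq)] at h2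
    rw [Lam_char hs hp]
    refine h2.congr fun T => ?_
    refine integral_congr_ae (Eventually.of_forall fun t => ?_)
    simp only
    rw [mF_ph, nk_log hp]
    congr 1
    unfold ex
    congr 1
    push_cast
    have : (Real.pi : ℂ) ≠ 0 := by exact_mod_cast Real.pi_ne_zero
    field_simp

/-! ### All the primes -/

/-- an entourage of a product only looks at finitely many coordinates -/
lemma unif_fin {κ : Type*} {W : Set ((κ → ℂ) × (κ → ℂ))} (hW : W ∈ uniformity (κ → ℂ)) :
    ∃ S : Finset κ, ∀ x y : κ → ℂ, (∀ i ∈ S, x i = y i) → (x, y) ∈ W := by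
  classical
  rw [Pi.uniformity, Filter.mem_iInf] at hW
  obtain ⟨I, hI, V, hV, rfl⟩ := hW
  refine ⟨hI.toFinset, fun x y hxy => ?_⟩
  rw [Set.mem_iInter]
  intro i
  obtain ⟨U, hU, hUV⟩ := hV i
  refine hUV ?_
  show (x i, y i) ∈ U
  rw [hxy i (hI.mem_toFinset.mpr i.2)]
  exact mem_uniformity_of_eq hU rfl

open Classical in
/-- replace all the coordinates off `S` by `1` -/
noncomputable def cut {κ : Type*} (S : Finset κ) (y : S → ℂ) : κ → ℂ := fun i => if h : i ∈ S then y ⟨i, h⟩ else 1

lemma cut_cont {κ : Type*} (S : Finset κ) : Continuous (cut S) := by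
  refine continuous_pi fun i => ?_
  unfold cut
  by_cases h : i ∈ S
  · simp only [h, dite_true]; exact continuous_apply _
  · simp only [h, dite_false]; exact continuous_const

/-- a continuous function on the infinite torus is uniformly close to a function of finitely many coordinates -/
lemma cut_approx {κ : Type*} {G : (κ → ℂ) → ℂ} (hG : Continuous G) {ε : ℝ} (hε : 0 < ε) :
    ∃ S : Finset κ, ∀ z : κ → ℂ, (∀ i, ‖z i‖ = 1) → ‖G z - G (cut S (fun i => z i))‖ ≤ ε := by
  classical
  have hK : IsCompact (Set.univ.pi fun _ : κ => Metric.closedBall (0:ℂ) 1) :=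
    isCompact_univ_pi fun _ => isCompact_closedBall _ _
  have hu := hK.uniformContinuousOn_of_continuous hG.continuousOn
  have h1 : {q : ℂ × ℂ | dist q.1 q.2 < ε} ∈ uniformity ℂ := Metric.dist_mem_uniformity hε
  have h2 := hu h1
  rw [Filter.mem_map, Filter.mem_inf_principal] at h2
  obtain ⟨S, hS⟩ := unif_fin h2
  refine ⟨S, fun z hz => ?_⟩
  have h3 := hS z (cut S (fun i => z i)) (fun i hi => by unfold cut; rw [dif_pos hi])
  have h4 : (z, cut S (fun i => z i)) ∈ (Set.univ.pi fun _ : κ => Metric.closedBall (0:ℂ) 1) ×ˢ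
      (Set.univ.pi fun _ : κ => Metric.closedBall (0:ℂ) 1) := by
    refine ⟨fun i _ => by simp [hz i], fun i _ => ?_⟩
    show cut S (fun i => z i) i ∈ Metric.closedBall (0:ℂ) 1
    by_cases h : i ∈ S
    · have e : cut S (fun i => z i) i = z i := by unfold cut; rw [dif_pos h]
      rw [e]; simp [hz]
    · have e : cut S (fun i => z i) i = 1 := by unfold cut; rw [dif_neg h]
      rw [e]; simp
  have h5 := h3 h4
  simp only [Set.mem_preimage, Set.mem_ofPred_eq] at h5
  rw [← dist_eq_norm]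
  exact h5.le

/-- **From the twists to the law of the phases of all the primes.** -/
theorem phases {s : ℝ} (hs : 0 < s)
    {A : ℝ → Set ℝ} {w : ℝ → ℝ → ℂ} {M : ℝ} {c : ℂ}
    (hint : ∀ᶠ T in atTop, IntegrableOn (w T) (A T)) (hM : ∀ᶠ T in atTop, ∫ t in A T, ‖w T t‖ ≤ M)
    (hlim : ∀ h k : ℕ, h ≠ 0 → k ≠ 0 → h.Coprime k → Tendsto (fun T => ∫ t in A T, w T t *
      Complex.exp (((Real.log k - Real.log h : ℝ) : ℂ) * Complex.I * t)) atTop
        (𝓝 (c * ((∏ q ∈ (h * k).primeFactors, nv s q ((h * k).factorization q) : ℝ) : ℂ))))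
    {G : (Nat.Primes → ℂ) → ℂ} (hG : Continuous G) :
    Tendsto (fun T => ∫ t in A T, w T t * G (fun p => ((p : ℕ) : ℂ) ^ ((t:ℂ) * Complex.I))) atTop
      (𝓝 (c * ∫ x, G (fun p => ex (x p)) ∂(Measure.infinitePi fun p : Nat.Primes => law s p))) := by
  have := fun p : Nat.Primes => law_prob (s := s) p.2
  have hM0 : 0 ≤ M := by
    obtain ⟨T, hT⟩ := hM.exists
    exact (integral_nonneg fun t => norm_nonneg _).trans hT
  have hpn : ∀ (t : ℝ) (p : Nat.Primes), ‖((p : ℕ) : ℂ) ^ ((t:ℂ) * Complex.I)‖ = 1 := fun t p => by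
    rw [Complex.norm_natCast_cpow_of_pos p.2.pos]; simp
  have hpc : Continuous fun (t : ℝ) (p : Nat.Primes) => ((p : ℕ) : ℂ) ^ ((t:ℂ) * Complex.I) := by
    refine continuous_pi fun p => ?_
    exact Continuous.const_cpow (by fun_prop) (Or.inl (by exact_mod_cast p.2.ne_zero))
  rw [Metric.tendsto_nhds]
  intro ε hε
  obtain ⟨η, hη⟩ : ∃ η, η = ε / (3 * (M + ‖c‖ + 1)) := ⟨_, rfl⟩
  have hη0 : 0 < η := by rw [hη]; positivity
  obtain ⟨S, hS⟩ := cut_approx hG hη0
  -- the finite approximation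
  have h1 := phases_fin (ι := S) (p := fun j => ((j : Nat.Primes) : ℕ)) (fun j => (j : Nat.Primes).2)
    (fun i j h => Subtype.ext (Subtype.ext h)) hs hint hM hlim (G := fun y => G (cut S y)) (hG.comp (cut_cont S))
  have h2 := Metric.tendsto_nhds.mp h1 (ε / 3) (by positivity)
  have hmeas : AEStronglyMeasurable (fun y : S → ℝ => G (cut S (fun j => ex (y j))))
      (Measure.pi fun i : S => law s (i : Nat.Primes)) :=
    (hG.comp ((cut_cont S).comp (continuous_pi fun j => ex_cont.comp (continuous_apply j)))).aestronglyMeasurable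
  have h3 := integral_restrict_infinitePi (μ := fun p : Nat.Primes => law s p) hmeas
  have hmG : AEStronglyMeasurable (fun x : Nat.Primes → ℝ => G (fun p => ex (x p)))
      (Measure.infinitePi fun p : Nat.Primes => law s p) :=
    (hG.comp (continuous_pi fun j => ex_cont.comp (continuous_apply j))).aestronglyMeasurable
  -- comparison of the limits
  have h4 : ‖(∫ x, G (fun p => ex (x p)) ∂(Measure.infinitePi fun p : Nat.Primes => law s p)) -
      ∫ y, G (cut S (fun j => ex (y j))) ∂(Measure.pi fun i : S => law s (i : Nat.Primes))‖ ≤ η := by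
    rw [← h3]
    have hb1 : ∃ C : ℝ, ∀ z : Nat.Primes → ℂ, (∀ i, ‖z i‖ = 1) → ‖G z‖ ≤ C := by
      have hK : IsCompact (Set.univ.pi fun _ : Nat.Primes => Metric.closedBall (0:ℂ) 1) :=
        isCompact_univ_pi fun _ => isCompact_closedBall _ _
      obtain ⟨C, hC⟩ := hK.exists_bound_of_continuousOn hG.continuousOn
      exact ⟨C, fun z hz => hC z fun i _ => by simp [hz i]⟩
    obtain ⟨C, hC⟩ := hb1
    have hi1 : Integrable (fun x : Nat.Primes → ℝ => G (fun p => ex (x p))) (Measure.infinitePi fun p : Nat.Primes => law s p) :=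
      (integrable_const (C:ℝ)).mono' hmG (Eventually.of_forall fun x => hC _ fun i => ex_norm _)
    have hi2 : Integrable (fun x : Nat.Primes → ℝ => G (cut S (fun j => ex (S.restrict x j))))
        (Measure.infinitePi fun p : Nat.Primes => law s p) := by
      refine (integrable_const (C:ℝ)).mono' ?_ (Eventually.of_forall fun x => hC _ fun i => ?_)
      · refine (hG.comp ((cut_cont S).comp (continuous_pi fun j => ex_cont.comp ?_))).aestronglyMeasurable
        exact continuous_apply (j : Nat.Primes)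
      · unfold cut
        split_ifs
        · exact ex_norm _
        · simp
    rw [← integral_sub hi1 hi2]
    refine (norm_integral_le_of_norm_le_const (C := η) (Eventually.of_forall fun x => ?_)).trans (by simp)
    exact hS (fun p => ex (x p)) fun i => ex_norm _
  filter_upwards [h2, hint, hM] with T t1 t2 t3
  -- comparison of the integrals
  have hG1 : IntegrableOn (fun t => w T t * G (fun p => ((p : ℕ) : ℂ) ^ ((t:ℂ) * Complex.I))) (A T) := by
    have hK : IsCompact (Set.univ.pi fun _ : Nat.Primes => Metric.closedBall (0:ℂ) 1) :=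
      isCompact_univ_pi fun _ => isCompact_closedBall _ _
    obtain ⟨C, hC⟩ := hK.exists_bound_of_continuousOn hG.continuousOn
    exact t2.mul_bdd (c := C) (hG.comp hpc).aestronglyMeasurable
      (Eventually.of_forall fun t => hC _ fun i _ => by simp [hpn t i])
  have hG2 : IntegrableOn (fun t => w T t * G (cut S (fun j => (((j : Nat.Primes) : ℕ) : ℂ) ^ ((t:ℂ) * Complex.I)))) (A T) := by
    have hK : IsCompact (Set.univ.pi fun _ : Nat.Primes => Metric.closedBall (0:ℂ) 1) :=
      isCompact_univ_pi fun _ => isCompact_closedBall _ _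
    obtain ⟨C, hC⟩ := hK.exists_bound_of_continuousOn hG.continuousOn
    refine t2.mul_bdd (c := C) (hG.comp ((cut_cont S).comp (continuous_pi fun j => (continuous_apply (j : Nat.Primes)).comp hpc))).aestronglyMeasurable
      (Eventually.of_forall fun t => hC _ fun i _ => ?_)
    unfold cut
    split_ifs
    · simp [hpn]
    · simp
  have h5 : ‖(∫ t in A T, w T t * G (fun p => ((p : ℕ) : ℂ) ^ ((t:ℂ) * Complex.I))) -
      ∫ t in A T, w T t * G (cut S (fun j => (((j : Nat.Primes) : ℕ) : ℂ) ^ ((t:ℂ) * Complex.I)))‖ ≤ M * η := by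
    rw [← integral_sub hG1 hG2]
    have h6 : ‖∫ t in A T, (w T t * G (fun p => ((p : ℕ) : ℂ) ^ ((t:ℂ) * Complex.I)) -
        w T t * G (cut S (fun j => (((j : Nat.Primes) : ℕ) : ℂ) ^ ((t:ℂ) * Complex.I))))‖ ≤ ∫ t in A T, ‖w T t‖ * η := by
      refine norm_integral_le_of_norm_le (t2.norm.mul_const _) (Eventually.of_forall fun t => ?_)
      rw [← mul_sub, norm_mul]
      exact mul_le_mul_of_nonneg_left (hS _ (hpn t)) (norm_nonneg _)
    rw [integral_mul_const] at h6
    exact h6.trans (mul_le_mul_of_nonneg_right t3 hη0.le)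
  rw [dist_eq_norm] at t1 ⊢
  set P := ∫ t in A T, w T t * G (fun p => ((p : ℕ) : ℂ) ^ ((t:ℂ) * Complex.I)) with hP
  set Q := ∫ t in A T, w T t * G (cut S (fun j => (((j : Nat.Primes) : ℕ) : ℂ) ^ ((t:ℂ) * Complex.I))) with hQ
  set X := ∫ x, G (fun p => ex (x p)) ∂(Measure.infinitePi fun p : Nat.Primes => law s p) with hX
  set Y := ∫ y, G (cut S (fun j => ex (y j))) ∂(Measure.pi fun i : S => law s (i : Nat.Primes)) with hY
  have e : P - c * X = (P - Q) + (Q - c * Y) - c * (X - Y) := by ring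
  rw [e]
  have h7 : ‖c * (X - Y)‖ ≤ ‖c‖ * η := by
    rw [norm_mul]; exact mul_le_mul_of_nonneg_left h4 (norm_nonneg _)
  have h8 : M * η + ‖c‖ * η < ε / 3 + ε / 3 := by
    have h9 : (M + ‖c‖ + 1) * η = ε / 3 := by rw [hη]; field_simp
    nlinarith [norm_nonneg c]
  calc ‖(P - Q) + (Q - c * Y) - c * (X - Y)‖ ≤ ‖P - Q‖ + ‖Q - c * Y‖ + ‖c * (X - Y)‖ :=
        (norm_sub_le _ _).trans (add_le_add_left (norm_add_le _ _) _)
    _ < ε := by linarith

end Pool.Agent.V1167.PP
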