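import Pool.Agent.Y753.NL.All6
import Pool.Agent.Y753.NL.Tilt
import Pool.Agent.V1167.PP.Tor

set_option autoImplicit false

/-! The law of the phases with respect to the weights of the moments of zeta. -/

namespace Pool.Agent.V1167.PP

open Filter MeasureTheory Topology
open Pool.Agent.Y753.NL
open Pool.Agent.Y755
open Pool.Agent.W184 (zn zn_nonneg)
open Pool.Agent.H306R2 (aF aF_pos)

lemma pos_of {δ : ℝ → ℝ} (hδL : Tendsto (fun T : ℝ => δ T * Real.log T) atTop atTop) : ∀ᶠ T in atTop, 0 < δ T := by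
  filter_upwards [hδL.eventually_gt_atTop 0, eventually_gt_atTop 1] with T hT hT1
  exact (pos_iff_pos_of_mul_pos hT).mpr (Real.log_pos hT1)

/-- the limit law of the phases, off a small set of large values -/
theorem small {δ : ℝ → ℝ} (hδ : Tendsto δ atTop (𝓝 0)) (hδL : Tendsto (fun T => δ T * Real.log T) atTop atTop)
    {E : ℝ → Set ℝ} {s : ℝ} (hs : 0 < s)
    (hm : ∀ h k : ℕ, h ≠ 0 → k ≠ 0 → h.Coprime k → ∀ F : BoundedContinuousFunction ℝ ℝ,
        Tendsto (fun T => (((2 * δ T) ^ (s ^ 2) / T : ℝ) : ℂ) * ∫ t in Set.Icc 0 T \ E T, ((zn (1 / 2 + δ T) t ^ (2 * s) *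
          F ((Real.log (zn (1 / 2 + δ T) t) - s * ell (δ T)) / sg (δ T)) : ℝ) : ℂ) * tw h k t) atTop
          (𝓝 ((aF s * (Nu s h k * ∫ x, F x ∂(ProbabilityTheory.gaussianReal 0 1)) : ℝ) : ℂ)))
    (F : BoundedContinuousFunction ℝ ℝ) {G : (Nat.Primes → ℂ) → ℂ} (hG : Continuous G) :
    Tendsto (fun T => (((2 * δ T) ^ (s ^ 2) / T : ℝ) : ℂ) * ∫ t in Set.Icc 0 T \ E T, ((zn (1 / 2 + δ T) t ^ (2 * s) *
          F ((Real.log (zn (1 / 2 + δ T) t) - s * ell (δ T)) / sg (δ T)) : ℝ) : ℂ) *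
            G (fun p => ((p : ℕ) : ℂ) ^ ((t:ℂ) * Complex.I))) atTop
          (𝓝 (((aF s * ∫ x, F x ∂(ProbabilityTheory.gaussianReal 0 1) : ℝ) : ℂ) *
            ∫ x, G (fun p => ex (x p)) ∂(Measure.infinitePi fun p : Nat.Primes => law s p))) := by
  have hpos := pos_of hδL
  have hδ2 := hδ.eventually (gt_mem_nhds (show (0:ℝ) < 1 / 2 by norm_num))
  obtain ⟨C, hC⟩ : ∃ C : ℝ → ℝ, ∀ T, C T = (2 * δ T) ^ (s ^ 2) / T := ⟨_, fun _ => rfl⟩
  obtain ⟨f, hf⟩ : ∃ f : ℝ → ℝ → ℝ, ∀ T t, f T t = zn (1 / 2 + δ T) t ^ (2 * s) *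
          F ((Real.log (zn (1 / 2 + δ T) t) - s * ell (δ T)) / sg (δ T)) := ⟨_, fun _ _ => rfl⟩
  have hm0 := hm
  simp_rw [← hC] at hm0
  simp_rw [← hC, ← hf]
  have hC0 : ∀ᶠ T in atTop, 0 ≤ C T := by
    filter_upwards [hpos, eventually_gt_atTop 0] with T h1 h2
    rw [hC]; positivity
  have hfi : ∀ᶠ T in atTop, IntegrableOn (f T) (Set.Icc 0 T \ E T) := by
    filter_upwards [hδ2] with T hT
    have h1 := FY_U (δ := δ T) (α0 := s) (l := ell (δ T)) (σ := sg (δ T)) (T := T) (U := Set.Icc 0 T \ E T)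
      Set.sdiff_subset (by linarith) hs.le F
    exact h1.congr (Eventually.of_forall fun t => (hf T t).symm)
  have hzi : ∀ᶠ T in atTop, IntegrableOn (fun t => zn (1 / 2 + δ T) t ^ (2 * s)) (Set.Icc 0 T \ E T) := by
    filter_upwards [hδ2] with T hT
    exact ((znp_cont (by linarith) (by positivity)).continuousOn.integrableOn_compact isCompact_Icc).mono_set Set.sdiff_subset
  -- the total mass
  have hmass : Tendsto (fun T => C T * ∫ t in Set.Icc 0 T \ E T, zn (1 / 2 + δ T) t ^ (2 * s)) atTop (𝓝 (aF s)) := by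
    have h1 := (Complex.continuous_re.tendsto _).comp
      (hm0 1 1 one_ne_zero one_ne_zero (Nat.coprime_one_left 1) (BoundedContinuousFunction.const ℝ 1))
    rw [Complex.ofReal_re, Nu_one, one_mul] at h1
    simp only [BoundedContinuousFunction.const_apply, integral_const, smul_eq_mul, probReal_univ, mul_one] at h1
    refine h1.congr fun T => ?_
    simp only [Function.comp]
    rw [Complex.re_ofReal_mul]
    congr 1
    have e : ∫ t in Set.Icc 0 T \ E T, ((zn (1 / 2 + δ T) t ^ (2 * s) : ℝ) : ℂ) * tw 1 1 t =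
        ((∫ t in Set.Icc 0 T \ E T, zn (1 / 2 + δ T) t ^ (2 * s) : ℝ) : ℂ) := by
      rw [← integral_complex_ofReal]
      refine integral_congr_ae (Eventually.of_forall fun t => ?_)
      simp only
      rw [tw_one, mul_one]
    rw [e, Complex.ofReal_re]
  have hkey := phases hs (A := fun T => Set.Icc 0 T \ E T) (w := fun T t => (C T : ℂ) * ((f T t : ℝ) : ℂ))
    (M := ‖F‖ * (aF s + 1)) (c := ((aF s * ∫ x, F x ∂(ProbabilityTheory.gaussianReal 0 1) : ℝ) : ℂ)) ?_ ?_ ?_ hG
  · refine hkey.congr fun T => ?_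
    rw [← integral_const_mul]
    refine integral_congr_ae (Eventually.of_forall fun t => ?_)
    simp only
    ring
  · filter_upwards [hfi] with T hT
    exact (hT.ofReal (𝕜 := ℂ)).const_mul _
  · filter_upwards [hzi, hC0, hmass.eventually (gt_mem_nhds (show aF s < aF s + 1 by linarith))] with T h1 h2 h3
    have h4 : ∫ t in Set.Icc 0 T \ E T, ‖(C T : ℂ) * ((f T t : ℝ) : ℂ)‖ ≤
        ∫ t in Set.Icc 0 T \ E T, ‖F‖ * (C T * zn (1 / 2 + δ T) t ^ (2 * s)) := by
      refine integral_mono_of_nonneg (Eventually.of_forall fun t => norm_nonneg _) ((h1.const_mul _).const_mul _)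
        (Eventually.of_forall fun t => ?_)
      simp only
      rw [norm_mul, Complex.norm_real, Complex.norm_real, Real.norm_of_nonneg h2, hf, norm_mul,
        Real.norm_of_nonneg (Real.rpow_nonneg (zn_nonneg _ _) _)]
      have h5 := F.norm_coe_le_norm ((Real.log (zn (1 / 2 + δ T) t) - s * ell (δ T)) / sg (δ T))
      have h6 : 0 ≤ C T * zn (1 / 2 + δ T) t ^ (2 * s) := mul_nonneg h2 (Real.rpow_nonneg (zn_nonneg _ _) _)
      calc C T * (zn (1 / 2 + δ T) t ^ (2 * s) * ‖F _‖) = ‖F _‖ * (C T * zn (1 / 2 + δ T) t ^ (2 * s)) := by ring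
        _ ≤ _ := mul_le_mul_of_nonneg_right h5 h6
    rw [integral_const_mul, integral_const_mul] at h4
    exact h4.trans (mul_le_mul_of_nonneg_left h3.le (norm_nonneg _))
  · intro h k hh hk hc
    have h1 := hm0 h k hh hk hc F
    simp_rw [← hf] at h1
    have e : (((aF s * (Nu s h k * ∫ x, F x ∂(ProbabilityTheory.gaussianReal 0 1)) : ℝ) : ℂ)) =
        ((aF s * ∫ x, F x ∂(ProbabilityTheory.gaussianReal 0 1) : ℝ) : ℂ) *
          ((∏ q ∈ (h * k).primeFactors, nv s q ((h * k).factorization q) : ℝ) : ℂ) := by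
      have e1 : Nu s h k = ∏ q ∈ (h * k).primeFactors, nv s q ((h * k).factorization q) := rfl
      rw [e1, ← Complex.ofReal_mul]
      congr 1
      ring
    rw [e] at h1
    refine h1.congr fun T => ?_
    rw [← integral_const_mul]
    refine integral_congr_ae (Eventually.of_forall fun t => ?_)
    simp only
    unfold tw
    ring

end Pool.Agent.V1167.PP
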