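import Pool.Agent.Y753.SHR.R18
import Pool.Agent.V1167.PP.Small

set_option autoImplicit false

/-! The law of the phases with respect to the weights of the moments of zeta. -/

namespace Pool.Agent.V1167.PP

open Filter MeasureTheory Topology
open Pool.Agent.Y753.NL Pool.Agent.Y753.SHR
open Pool.Agent.W184 (zn zn_nonneg)
open Pool.Agent.H306R2 (aF aF_pos)

/-- **The law of the phases of all the primes with respect to the weights of all the moments**, off a small set -/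
theorem prime_phases {δ : ℝ → ℝ} (hδ : Tendsto δ atTop (𝓝 0)) (hδL : Tendsto (fun T => δ T * Real.log T) atTop atTop)
    {κ : ℝ} (hκ : 0 ≤ κ) :
    ∃ E : ℝ → Set ℝ, (∀ T, MeasurableSet (E T) ∧ E T ⊆ Set.Icc 0 T ∧ ∀ t ∈ E T, (δ T) ^ (-(2 + κ)) < zn (1 / 2 + δ T) t) ∧
      Tendsto (fun T => (volume (E T)).toReal / (T * (δ T) ^ (4 + 4 * κ))) atTop (𝓝 0) ∧
      ∀ s : ℝ, 0 < s → (s ≤ 2 ∨ 2 + 2 * κ ≤ s) → 0 < aF s ∧ ∀ F : BoundedContinuousFunction ℝ ℝ,
        ∀ G : (Nat.Primes → ℂ) → ℂ, Continuous G →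
        Tendsto (fun T => (((2 * δ T) ^ (s ^ 2) / T : ℝ) : ℂ) * ∫ t in Set.Icc 0 T \ E T, ((zn (1 / 2 + δ T) t ^ (2 * s) *
          F ((Real.log (zn (1 / 2 + δ T) t) - s * ell (δ T)) / sg (δ T)) : ℝ) : ℂ) *
            G (fun p => ((p : ℕ) : ℂ) ^ ((t:ℂ) * Complex.I))) atTop
          (𝓝 (((aF s * ∫ x, F x ∂(ProbabilityTheory.gaussianReal 0 1) : ℝ) : ℂ) *
            ∫ x, G (fun p => ex (x p)) ∂(Measure.infinitePi fun p : Nat.Primes => law s p))) := by
  obtain ⟨E, hE, hvol, hm⟩ := tilt_small hδ hδL hκ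
  refine ⟨E, fun T => ⟨(hE T).1, (hE T).2.1, fun t ht => ?_⟩, hvol, fun s hs hcase => ⟨aF_pos hs, fun F G hG => ?_⟩⟩
  · rw [zn_za]; exact (hE T).2.2 t ht
  · exact small hδ hδL hs (fun h k hh hk hc F => hm s hs (by
      rcases hcase with h | h
      · left; exact h
      · right; linarith) h k hh hk hc F) F hG

/-- with complete integrals, for `s ≤ 2` -/
theorem full_phases {δ : ℝ → ℝ} (hδ : Tendsto δ atTop (𝓝 0)) (hδL : Tendsto (fun T => δ T * Real.log T) atTop atTop)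
    {s : ℝ} (hs : 0 < s) (hs2 : s ≤ 2) (F : BoundedContinuousFunction ℝ ℝ) {G : (Nat.Primes → ℂ) → ℂ} (hG : Continuous G) :
    Tendsto (fun T => (((2 * δ T) ^ (s ^ 2) / T : ℝ) : ℂ) * ∫ t in Set.Icc 0 T, ((zn (1 / 2 + δ T) t ^ (2 * s) *
          F ((Real.log (zn (1 / 2 + δ T) t) - s * ell (δ T)) / sg (δ T)) : ℝ) : ℂ) *
            G (fun p => ((p : ℕ) : ℂ) ^ ((t:ℂ) * Complex.I))) atTop
          (𝓝 (((aF s * ∫ x, F x ∂(ProbabilityTheory.gaussianReal 0 1) : ℝ) : ℂ) *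
            ∫ x, G (fun p => ex (x p)) ∂(Measure.infinitePi fun p : Nat.Primes => law s p))) := by
  obtain ⟨E, hE, hvol, hm⟩ := tilt_small hδ hδL (le_refl (0:ℝ))
  have hE' : ∀ T, MeasurableSet (E T) ∧ E T ⊆ Set.Icc 0 T := fun T => ⟨(hE T).1, (hE T).2.1⟩
  have h1 := small hδ hδL hs (fun h k hh hk hc F => hm s hs (Or.inl hs2) h k hh hk hc F) F hG
  have hδ2 := hδ.eventually (gt_mem_nhds (show (0:ℝ) < 1 / 2 by norm_num))
  -- the total mass
  have hone : Tendsto (fun T => (2 * δ T) ^ (s ^ 2) / T * ∫ t in Set.Icc 0 T \ E T, za (δ T) 0 t ^ (2 * s)) atTop (𝓝 (aF s)) := by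
    have h1 := (Complex.continuous_re.tendsto _).comp
      (hm s hs (Or.inl hs2) 1 1 one_ne_zero one_ne_zero (Nat.coprime_one_left 1) (BoundedContinuousFunction.const ℝ 1))
    rw [Complex.ofReal_re, Nu_one, one_mul] at h1
    simp only [BoundedContinuousFunction.const_apply, integral_const, smul_eq_mul, probReal_univ, mul_one] at h1
    refine h1.congr fun T => ?_
    simp only [Function.comp]
    rw [Complex.re_ofReal_mul]
    congr 1
    have e : ∫ t in Set.Icc 0 T \ E T, ((zn (1 / 2 + δ T) t ^ (2 * s) : ℝ) : ℂ) * tw 1 1 t =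
        ((∫ t in Set.Icc 0 T \ E T, za (δ T) 0 t ^ (2 * s) : ℝ) : ℂ) := by
      rw [← integral_complex_ofReal]
      refine integral_congr_ae (Eventually.of_forall fun t => ?_)
      simp only
      rw [tw_one, mul_one, zn_za]
    rw [e, Complex.ofReal_re]
  have hsm := small_E hs hs2 hδ hδL hE' 0 hone
  obtain ⟨B, hB⟩ : ∃ B : ℝ, ∀ z : Nat.Primes → ℂ, (∀ i, ‖z i‖ = 1) → ‖G z‖ ≤ B := by
    have hK : IsCompact (Set.univ.pi fun _ : Nat.Primes => Metric.closedBall (0:ℂ) 1) :=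
      isCompact_univ_pi fun _ => isCompact_closedBall _ _
    obtain ⟨C, hC⟩ := hK.exists_bound_of_continuousOn hG.continuousOn
    exact ⟨C, fun z hz => hC z fun i _ => by simp [hz i]⟩
  have hpn : ∀ (t : ℝ) (p : Nat.Primes), ‖((p : ℕ) : ℂ) ^ ((t:ℂ) * Complex.I)‖ = 1 := fun t p => by
    rw [Complex.norm_natCast_cpow_of_pos p.2.pos]; simp
  have hpc : Continuous fun (t : ℝ) (p : Nat.Primes) => ((p : ℕ) : ℂ) ^ ((t:ℂ) * Complex.I) := by
    refine continuous_pi fun p => ?_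
    exact Continuous.const_cpow (by fun_prop) (Or.inl (by exact_mod_cast p.2.ne_zero))
  have h5 := transfer (c := fun T => (2 * δ T) ^ (s ^ 2) / T) (f := fun T t => ((zn (1 / 2 + δ T) t ^ (2 * s) *
          F ((Real.log (zn (1 / 2 + δ T) t) - s * ell (δ T)) / sg (δ T)) : ℝ) : ℂ) *
            G (fun p => ((p : ℕ) : ℂ) ^ ((t:ℂ) * Complex.I)))
    (g := fun T t => ‖F‖ * B * za (δ T) 0 t ^ (2 * s)) (E := E) (E' := fun _ => ∅)
    (L := (((aF s * ∫ x, F x ∂(ProbabilityTheory.gaussianReal 0 1) : ℝ) : ℂ) *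
            ∫ x, G (fun p => ex (x p)) ∂(Measure.infinitePi fun p : Nat.Primes => law s p))) ?_ hE'
    (fun T => ⟨MeasurableSet.empty, Set.empty_subset _⟩) ?_ ?_ ?_ ?_ ?_
  · refine h5.congr fun T => ?_
    rw [Complex.real_smul, Set.sdiff_empty]
  · filter_upwards [pos_path hδL, eventually_gt_atTop 0] with T t1 t2
    positivity
  · filter_upwards [hδ2] with T hT
    have h1 := FY_U (δ := δ T) (α0 := s) (l := ell (δ T)) (σ := sg (δ T)) (T := T) subset_rfl (by linarith) hs.le F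
    exact (h1.ofReal (𝕜 := ℂ)).mul_bdd (c := B) (hG.comp hpc).aestronglyMeasurable (Eventually.of_forall fun t => hB _ (hpn t))
  · filter_upwards [hδ2] with T hT
    exact (((za_cont hT 0).rpow_const fun t => Or.inr (by positivity)).continuousOn.integrableOn_compact isCompact_Icc).const_mul _
  · refine Eventually.of_forall fun T t => ?_
    rw [norm_mul, Complex.norm_real, norm_mul, Real.norm_of_nonneg (Real.rpow_nonneg (zn_nonneg _ _) _), zn_za]
    have hz : 0 ≤ za (δ T) 0 t ^ (2 * s) := Real.rpow_nonneg (za_nonneg _ _ _) _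
    have hF := F.norm_coe_le_norm ((Real.log (za (δ T) 0 t) - s * ell (δ T)) / sg (δ T))
    have hGB := hB _ (hpn t)
    calc za (δ T) 0 t ^ (2 * s) * ‖F _‖ * ‖G _‖ ≤ za (δ T) 0 t ^ (2 * s) * ‖F‖ * B :=
          mul_le_mul (mul_le_mul_of_nonneg_left hF hz) hGB (norm_nonneg _) (mul_nonneg hz (norm_nonneg _))
      _ = _ := by ring
  · refine h1.congr fun T => ?_
    rw [Complex.real_smul]
  · have h2 := hsm.const_mul (‖F‖ * B)
    rw [mul_zero] at h2
    refine h2.congr fun T => ?_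
    rw [Set.sdiff_empty, integral_const_mul]
    ring

end Pool.Agent.V1167.PP
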