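import Mathlib

set_option autoImplicit false

/-! Weighted limits on the torus: from characters to continuous functions. -/

namespace Pool.Agent.V1167.PP

open Filter MeasureTheory Topology UnitAddTorus

variable {ι : Type*} [Fintype ι]

/-- limits of bounded families of functionals, along a dense span -/
lemma dense_lim {X : Type*} [NormedAddCommGroup X] [NormedSpace ℂ X] {L : ℝ → X → ℂ} {L0 : X → ℂ} {M : ℝ}
    (hadd : ∀ᶠ T in atTop, ∀ x y, L T (x + y) = L T x + L T y) (hsmul : ∀ᶠ T in atTop, ∀ (c : ℂ) x, L T (c • x) = c * L T x)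
    (hb : ∀ᶠ T in atTop, ∀ x, ‖L T x‖ ≤ M * ‖x‖)
    (h0add : ∀ x y, L0 (x + y) = L0 x + L0 y) (h0smul : ∀ (c : ℂ) x, L0 (c • x) = c * L0 x)
    (h0b : ∀ x, ‖L0 x‖ ≤ M * ‖x‖) {S : Set X} (hS : (Submodule.span ℂ S).topologicalClosure = ⊤)
    (hl : ∀ x ∈ S, Tendsto (fun T => L T x) atTop (𝓝 (L0 x))) (x : X) :
    Tendsto (fun T => L T x) atTop (𝓝 (L0 x)) := by
  have hM : ∀ᶠ _ : ℝ in atTop, True := by simp
  have hspan : ∀ y ∈ Submodule.span ℂ S, Tendsto (fun T => L T y) atTop (𝓝 (L0 y)) := by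
    intro y hy
    induction hy using Submodule.span_induction with
    | mem z hz => exact hl z hz
    | zero =>
      have e0 : L0 0 = 0 := by have := h0smul 0 0; simpa using this
      rw [e0]
      refine (tendsto_const_nhds (x := (0:ℂ))).congr' ?_
      filter_upwards [hsmul] with T hT
      have := hT 0 0
      simpa using this.symm
    | add y z _ _ hy hz =>
      rw [h0add]
      refine (hy.add hz).congr' ?_
      filter_upwards [hadd] with T hT
      exact (hT y z).symm
    | smul c y _ hy =>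
      rw [h0smul]
      refine (hy.const_mul c).congr' ?_
      filter_upwards [hsmul] with T hT
      exact (hT c y).symm
  have hx : x ∈ closure (Submodule.span ℂ S : Set X) := by
    rw [← Submodule.topologicalClosure_coe, hS]; trivial
  rw [Metric.tendsto_nhds]
  intro ε hε
  obtain ⟨y, hy, hxy⟩ := Metric.mem_closure_iff.mp hx (ε / (3 * (|M| + 1))) (by positivity)
  have h1 := Metric.tendsto_nhds.mp (hspan y hy) (ε / 3) (by positivity)
  have hm : M * ‖x - y‖ < ε / 3 := by
    rw [dist_eq_norm] at hxy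
    have h2 : M * ‖x - y‖ ≤ (|M| + 1) * ‖x - y‖ :=
      mul_le_mul_of_nonneg_right (by have := le_abs_self M; linarith) (norm_nonneg _)
    have h3 : (|M| + 1) * ‖x - y‖ < (|M| + 1) * (ε / (3 * (|M| + 1))) :=
      mul_lt_mul_of_pos_left hxy (by positivity)
    have h4 : (|M| + 1) * (ε / (3 * (|M| + 1))) = ε / 3 := by field_simp
    linarith
  have h0s : L0 x - L0 y = L0 (x - y) := by
    have := h0add (x - y) y
    rw [sub_add_cancel] at this
    rw [this]; ring
  filter_upwards [h1, hadd, hb] with T t1 t2 t3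
  have hs : L T x - L T y = L T (x - y) := by
    have := t2 (x - y) y
    rw [sub_add_cancel] at this
    rw [this]; ring
  rw [dist_eq_norm] at t1 ⊢
  have e : L T x - L0 x = (L T x - L T y) + (L T y - L0 y) - (L0 x - L0 y) := by ring
  rw [e, hs, h0s]
  have h5 := t3 (x - y)
  have h6 := h0b (x - y)
  calc ‖L T (x - y) + (L T y - L0 y) - L0 (x - y)‖ ≤ ‖L T (x - y)‖ + ‖L T y - L0 y‖ + ‖L0 (x - y)‖ :=
        (norm_sub_le _ _).trans (add_le_add_left (norm_add_le _ _) _)
    _ < ε := by linarith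

/-- weighted limits: from the characters of the torus to all the continuous functions -/
lemma sw {A : ℝ → Set ℝ} {w : ℝ → ℝ → ℂ} {M : ℝ} {φ : ℝ → UnitAddTorus ι} (hφ : Continuous φ)
    (hint : ∀ᶠ T in atTop, IntegrableOn (w T) (A T)) (hM : ∀ᶠ T in atTop, ∫ t in A T, ‖w T t‖ ≤ M)
    {L0 : C(UnitAddTorus ι, ℂ) → ℂ} (h0add : ∀ x y, L0 (x + y) = L0 x + L0 y)
    (h0smul : ∀ (c : ℂ) x, L0 (c • x) = c * L0 x) {M0 : ℝ} (h0b : ∀ x, ‖L0 x‖ ≤ M0 * ‖x‖)
    (hch : ∀ n : ι → ℤ, Tendsto (fun T => ∫ t in A T, w T t * mFourier n (φ t)) atTop (𝓝 (L0 (mFourier n))))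
    (G : C(UnitAddTorus ι, ℂ)) :
    Tendsto (fun T => ∫ t in A T, w T t * G (φ t)) atTop (𝓝 (L0 G)) := by
  have hii : ∀ᶠ T in atTop, ∀ G : C(UnitAddTorus ι, ℂ), IntegrableOn (fun t => w T t * G (φ t)) (A T) := by
    filter_upwards [hint] with T hT G
    exact hT.mul_bdd (c := ‖G‖) (G.continuous.comp hφ).aestronglyMeasurable
      (Eventually.of_forall fun t => G.norm_coe_le_norm _)
  refine dense_lim (L := fun T G => ∫ t in A T, w T t * G (φ t)) (M := max M M0) ?_ ?_ ?_ h0add h0smul ?_
    span_mFourier_closure_eq_top ?_ G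
  · filter_upwards [hii] with T hT x y
    rw [← integral_add (hT x) (hT y)]
    refine integral_congr_ae (Eventually.of_forall fun t => ?_)
    simp only [ContinuousMap.add_apply]
    ring
  · refine Eventually.of_forall fun T c x => ?_
    rw [← integral_const_mul]
    refine integral_congr_ae (Eventually.of_forall fun t => ?_)
    simp only [ContinuousMap.smul_apply, smul_eq_mul]
    ring
  · filter_upwards [hint, hM] with T h1 h2 x
    have h3 : ‖∫ t in A T, w T t * x (φ t)‖ ≤ ∫ t in A T, ‖w T t‖ * ‖x‖ := by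
      refine norm_integral_le_of_norm_le (h1.norm.mul_const _) (Eventually.of_forall fun t => ?_)
      rw [norm_mul]
      exact mul_le_mul_of_nonneg_left (x.norm_coe_le_norm _) (norm_nonneg _)
    rw [integral_mul_const] at h3
    exact h3.trans (mul_le_mul_of_nonneg_right (h2.trans (le_max_left _ _)) (norm_nonneg _))
  · intro x
    exact (h0b x).trans (mul_le_mul_of_nonneg_right (le_max_right _ _) (norm_nonneg _))
  · rintro _ ⟨n, rfl⟩
    exact hch n

end Pool.Agent.V1167.PP
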